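import Pool.Agent.helper75.WB.SpecI

/-!
# Project wb, Part I, row ISHR
-/

set_option autoImplicit false

namespace Pool.Agent.WB

open Finset

/-- the integer `x' p - x p'` does not vanish -/
theorem ISHR_ne_45 {M s₀ : ℝ} {p p' : ℕ} (hp : p ∈ prs M) (hp' : p' ∈ prs M) (hne : p ≠ p')
    (hs : s₀ ≤ M) {x x' : ℤ} (hx0 : x ≠ 0 ∨ x' ≠ 0) (hx : |(x : ℝ)| < s₀) :
    x' * p - x * p' ≠ 0 := by
  intro h
  rw [mem_prs] at hp hp'
  obtain ⟨hpP, hpM, _⟩ := hp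
  obtain ⟨hpP', _, _⟩ := hp'
  have he : x' * (p : ℤ) = x * (p' : ℤ) := by linarith
  have hd : (p : ℤ) ∣ x * (p' : ℤ) := ⟨x', by rw [← he]; ring⟩
  have hpZ : Prime (p : ℤ) := Nat.prime_iff_prime_int.mp hpP
  have hdx : (p : ℤ) ∣ x := by
    rcases hpZ.dvd_or_dvd hd with h1 | h1
    · exact h1
    · exfalso
      have h2 : p ∣ p' := by exact_mod_cast h1
      exact hne ((Nat.prime_dvd_prime_iff_eq hpP hpP').mp h2)
  have hx1 : |x| < (p : ℤ) := by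
    have h3 : |(x : ℝ)| < (p : ℝ) := by linarith
    exact_mod_cast h3
  have hx2 : x = 0 := Int.eq_zero_of_abs_lt_dvd hdx hx1
  rw [hx2, zero_mul] at he
  have hp0 : (p : ℤ) ≠ 0 := by exact_mod_cast hpP.ne_zero
  rcases mul_eq_zero.mp he with h4 | h4
  · rcases hx0 with h5 | h5
    · exact h5 hx2
    · exact h5 h4
  · exact hp0 h4

theorem ISHR (hIPD : IPD_stmt) : ISHR_stmt := by
  classical
  intro M Y s₀ κ p p' Z hp hp' hne hs1 hsM hY hbound hZ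
  set I : Finset ℤ := Icc (-⌊s₀⌋) ⌊s₀⌋ with hI
  set B : Finset (ℤ × ℤ) := (I ×ˢ I).filter
    (fun b => (b.1 ≠ 0 ∨ b.2 ≠ 0) ∧ |(b.1 : ℝ)| < s₀ ∧ |(b.2 : ℝ)| < s₀) with hB
  have hcover : Z ⊆ B.biUnion (fun b => Z.filter (fun l : ℕ => (l : ℤ) ∣ b.2 * p - b.1 * p')) := by
    intro l hl
    obtain ⟨_, _, x, x', h0, hx, hx', hd⟩ := hZ l hl
    rw [mem_biUnion]
    refine ⟨(x, x'), ?_, ?_⟩
    · rw [hB, mem_filter, mem_product, hI, mem_Icc, mem_Icc, abs_le_floor, abs_le_floor]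
      exact ⟨⟨hx.le, hx'.le⟩, h0, hx, hx'⟩
    · rw [mem_filter]
      exact ⟨hl, hd⟩
  have hp2 := hp
  have hp2' := hp'
  rw [mem_prs] at hp2 hp2'
  have hcard : ∀ b ∈ B, (Z.filter (fun l : ℕ => (l : ℤ) ∣ b.2 * p - b.1 * p')).card ≤ κ := by
    intro b hb
    rw [hB, mem_filter] at hb
    obtain ⟨_, h0, hx, hx'⟩ := hb
    have hg : b.2 * (p : ℤ) - b.1 * (p' : ℤ) ≠ 0 := ISHR_ne_45 hp hp' hne hsM h0 hx
    have hle := hIPD (b.2 * p - b.1 * p') hg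
      (Z.filter (fun l : ℕ => (l : ℤ) ∣ b.2 * p - b.1 * p'))
      (fun l hl => by
        rw [mem_filter] at hl
        exact ⟨(hZ l hl.1).1, hl.2⟩) Y hY.le
      (fun l hl => by
        rw [mem_filter] at hl
        exact (hZ l hl.1).2.1)
    have habs : |((b.2 * (p : ℤ) - b.1 * (p' : ℤ) : ℤ) : ℝ)| ≤ 4 * s₀ * M := by
      push_cast
      have h1 : |(b.2 : ℝ) * (p : ℝ)| ≤ s₀ * (2 * M) := by
        rw [abs_mul]
        have h2 : |(p : ℝ)| = (p : ℝ) := abs_of_nonneg (Nat.cast_nonneg p)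
        rw [h2]
        exact mul_le_mul hx'.le hp2.2.2.le (Nat.cast_nonneg p) (by linarith)
      have h3 : |(b.1 : ℝ) * (p' : ℝ)| ≤ s₀ * (2 * M) := by
        rw [abs_mul]
        have h2 : |(p' : ℝ)| = (p' : ℝ) := abs_of_nonneg (Nat.cast_nonneg p')
        rw [h2]
        exact mul_le_mul hx.le hp2'.2.2.le (Nat.cast_nonneg p') (by linarith)
      calc |(b.2 : ℝ) * (p : ℝ) - (b.1 : ℝ) * (p' : ℝ)|
          ≤ |(b.2 : ℝ) * (p : ℝ)| + |(b.1 : ℝ) * (p' : ℝ)| := abs_sub _ _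
        _ ≤ 4 * s₀ * M := by linarith
    by_contra hcon
    have hk : κ + 1 ≤ (Z.filter (fun l : ℕ => (l : ℤ) ∣ b.2 * p - b.1 * p')).card := by omega
    have hpow : Y ^ (κ + 1) ≤
        Y ^ (Z.filter (fun l : ℕ => (l : ℤ) ∣ b.2 * p - b.1 * p')).card :=
      pow_le_pow_right₀ hY.le hk
    linarith
  have h1 : Z.card ≤ B.card * κ :=
    (card_le_card hcover).trans (card_biUnion_le_card_mul _ _ _ hcard)
  have hIc : (I.card : ℝ) ≤ 2 * s₀ + 1 := by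
    have hfl0 : 0 ≤ ⌊s₀⌋ := Int.floor_nonneg.mpr (by linarith)
    have hc : (I.card : ℤ) = 2 * ⌊s₀⌋ + 1 := by
      rw [hI, Int.card_Icc]
      have : (0 : ℤ) ≤ ⌊s₀⌋ + 1 - -⌊s₀⌋ := by linarith
      rw [Int.toNat_of_nonneg this]
      ring
    have hc' : (I.card : ℝ) = 2 * (⌊s₀⌋ : ℝ) + 1 := by exact_mod_cast hc
    rw [hc']
    have := Int.floor_le s₀
    linarith
  have hBc : (B.card : ℝ) ≤ (2 * s₀ + 1) ^ 2 := by
    have h2 : B.card ≤ I.card * I.card := by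
      rw [← card_product]
      exact card_le_card (filter_subset _ _)
    have h3 : (B.card : ℝ) ≤ (I.card : ℝ) * (I.card : ℝ) := by exact_mod_cast h2
    have h4 : (0 : ℝ) ≤ (I.card : ℝ) := Nat.cast_nonneg _
    calc (B.card : ℝ) ≤ (I.card : ℝ) * (I.card : ℝ) := h3
      _ ≤ (2 * s₀ + 1) * (2 * s₀ + 1) := mul_le_mul hIc hIc h4 (by linarith)
      _ = (2 * s₀ + 1) ^ 2 := by ring
  have h5 : (Z.card : ℝ) ≤ (B.card : ℝ) * (κ : ℝ) := by exact_mod_cast h1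
  calc (Z.card : ℝ) ≤ (B.card : ℝ) * (κ : ℝ) := h5
    _ ≤ (2 * s₀ + 1) ^ 2 * (κ : ℝ) := mul_le_mul_of_nonneg_right hBc (Nat.cast_nonneg κ)
    _ = (κ : ℝ) * (2 * s₀ + 1) ^ 2 := by ring

end Pool.Agent.WB
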